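import Pool.Agent.Run7.h601.ZN.Stm

/-! # Project ZN, piece INT: scalar products with permutation characters are integers -/

set_option autoImplicit false

namespace Pool.Agent.Run7.h858.ZN

open Finset CategoryTheory Pool.Agent.Run7.h601.ZN

variable {n k : ℕ}

/-- the stabiliser of a word -/
def St (w : Fin n → Fin k) : Subgroup (Equiv.Perm (Fin n)) where
  carrier := {σ | ∀ x, w (σ x) = w x}
  mul_mem' := by
    intro a b ha hb x
    rw [Equiv.Perm.mul_apply, ha, hb]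
  one_mem' := fun _ => rfl
  inv_mem' := by
    intro a ha x
    have h := ha (a⁻¹ x)
    have h2 : a (a⁻¹ x) = x := a.apply_symm_apply x
    rw [h2] at h
    exact h.symm

theorem mem_St (w : Fin n → Fin k) (σ : Equiv.Perm (Fin n)) : σ ∈ St w ↔ ∀ x, w (σ x) = w x :=
  Iff.rfl

instance (w : Fin n → Fin k) : DecidablePred (· ∈ St w) := fun σ =>
  decidable_of_iff (∀ x, w (σ x) = w x) Iff.rfl

/-- the sum of the character over the stabiliser -/
noncomputable def SS (V : FDRep ℂ (Equiv.Perm (Fin n))) (w : Fin n → Fin k) : ℂ :=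
  ∑ σ ∈ univ.filter (fun σ => σ ∈ St w), V.character σ

theorem sum_sub (V : FDRep ℂ (Equiv.Perm (Fin n))) (H : Subgroup (Equiv.Perm (Fin n)))
    [DecidablePred (· ∈ H)] :
    ∃ d : ℕ, ∑ σ ∈ univ.filter (fun σ => σ ∈ H), V.character σ =
      ((univ.filter (fun σ => σ ∈ H)).card : ℂ) * d := by
  classical
  have hnn : (Nat.card H : ℂ) ≠ 0 := by
    have : Nat.card H ≠ 0 := Nat.card_pos.ne'
    exact_mod_cast this
  have : Invertible (Nat.card H : ℂ) := invertibleOfNonzero hnn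
  have key := Representation.card_inv_mul_sum_char_eq_finrank (k := ℂ) (G := H)
    (MonoidHom.comp V.ρ H.subtype)
  have hc : (univ.filter (fun σ => σ ∈ H)).card = Nat.card H := by
    rw [Nat.card_eq_fintype_card, Fintype.card_subtype]
  have hne : (Nat.card H : ℂ) ≠ 0 := by
    have : Nat.card H ≠ 0 := Nat.card_pos.ne'
    exact_mod_cast this
  refine ⟨Module.finrank ℂ (Representation.invariants (MonoidHom.comp V.ρ H.subtype)), ?_⟩
  rw [← key, hc, ← mul_assoc, mul_inv_cancel₀ hne, one_mul]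
  exact Finset.sum_subtype (univ.filter (fun σ => σ ∈ H)) (p := fun σ => σ ∈ H)
    (by intro x; simp) (fun σ => V.character σ)

theorem SS_comp (V : FDRep ℂ (Equiv.Perm (Fin n))) (w : Fin n → Fin k) (ρ : Equiv.Perm (Fin n)) :
    SS V (w ∘ ρ) = SS V w := by
  unfold SS
  refine Finset.sum_bij' (fun σ _ => ρ * σ * ρ⁻¹) (fun σ _ => ρ⁻¹ * σ * ρ) ?_ ?_ ?_ ?_ ?_
  · intro σ hσ
    rw [mem_filter] at hσ ⊢
    refine ⟨mem_univ _, ?_⟩
    rw [mem_St] at *
    intro x
    have := hσ.2 (ρ⁻¹ x)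
    simpa using this
  · intro σ hσ
    rw [mem_filter] at hσ ⊢
    refine ⟨mem_univ _, ?_⟩
    rw [mem_St] at *
    intro x
    have := hσ.2 (ρ x)
    simpa using this
  · intro σ _
    group
  · intro σ _
    group
  · intro σ _
    rw [FDRep.char_conj]

/-- the words with content `α` -/
def Om (α : Fin k → ℤ) : Finset (Fin n → Fin k) :=
  univ.filter (fun w => ∀ i, (cnt w i : ℤ) = α i)

theorem comp_mem {α : Fin k → ℤ} {w : Fin n → Fin k} (hw : w ∈ Om α) (ρ : Equiv.Perm (Fin n)) :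
    w ∘ ρ ∈ Om α := by
  unfold Om at *
  rw [mem_filter] at *
  refine ⟨mem_univ _, fun i => ?_⟩
  rw [← hw.2 i]
  congr 1
  unfold cnt
  refine Finset.card_bij' (fun x _ => ρ x) (fun x _ => ρ⁻¹ x) ?_ ?_ ?_ ?_
  · intro x hx
    rw [mem_filter] at *
    exact ⟨mem_univ _, hx.2⟩
  · intro x hx
    rw [mem_filter] at *
    refine ⟨mem_univ _, ?_⟩
    have h2 : ρ (ρ⁻¹ x) = x := ρ.apply_symm_apply x
    change w (ρ (ρ⁻¹ x)) = i
    rw [h2]
    exact hx.2
  · intro x _
    simp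
  · intro x _
    simp

theorem exists_perm {α : Fin k → ℤ} {w w' : Fin n → Fin k} (hw : w ∈ Om α) (hw' : w' ∈ Om α) :
    ∃ ρ : Equiv.Perm (Fin n), w ∘ ρ = w' := by
  have h : ∀ i, Fintype.card {x // w' x = i} = Fintype.card {x // w x = i} := by
    intro i
    unfold Om at hw hw'
    rw [mem_filter] at hw hw'
    have h1 := hw.2 i
    rw [← hw'.2 i] at h1
    unfold cnt at h1
    rw [Fintype.card_subtype, Fintype.card_subtype]
    exact_mod_cast h1.symm
  refine ⟨Equiv.ofFiberEquiv (fun i => Fintype.equivOfCardEq (h i)), ?_⟩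
  funext x
  exact Equiv.ofFiberEquiv_map _ x

theorem fib_card {α : Fin k → ℤ} {w w' : Fin n → Fin k} (hw : w ∈ Om α) (hw' : w' ∈ Om α) :
    (univ.filter (fun ρ : Equiv.Perm (Fin n) => w ∘ ρ = w')).card =
      (univ.filter (fun σ => σ ∈ St w)).card := by
  obtain ⟨ρ₁, h1⟩ := exists_perm hw hw'
  refine Finset.card_bij' (fun ρ _ => ρ * ρ₁⁻¹) (fun σ _ => σ * ρ₁) ?_ ?_ ?_ ?_
  · intro ρ hρ
    rw [mem_filter] at *
    refine ⟨mem_univ _, ?_⟩
    intro x
    have h2 := congrFun hρ.2 (ρ₁⁻¹ x)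
    have h3 := congrFun h1 (ρ₁⁻¹ x)
    have h4 : ρ₁ (ρ₁⁻¹ x) = x := ρ₁.apply_symm_apply x
    simp only [Function.comp_apply] at h2 h3
    rw [Equiv.Perm.mul_apply, h2, ← h3, h4]
  · intro σ hσ
    rw [mem_filter] at *
    refine ⟨mem_univ _, ?_⟩
    funext x
    rw [← h1]
    exact hσ.2 (ρ₁ x)
  · intro ρ _
    group
  · intro σ _
    group

theorem t_INT : S_INT := by
  intro n k V α
  classical
  -- exchange of the sums
  have h1 : ∑ σ : Equiv.Perm (Fin n), V.character σ * ((fixW α σ : ℤ) : ℂ) =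
      ∑ w ∈ Om α, SS V w := by
    have h2 : ∀ σ : Equiv.Perm (Fin n), V.character σ * ((fixW α σ : ℤ) : ℂ) =
        ∑ w ∈ Om α, if σ ∈ St w then V.character σ else 0 := by
      intro σ
      have h7 : (fixW α σ : ℤ) = (((Om (n := n) α).filter (fun w => σ ∈ St w)).card : ℤ) := by
        unfold fixW Om
        refine congrArg (fun s : Finset (Fin n → Fin k) => (s.card : ℤ)) (Finset.ext fun w => ?_)
        simp only [mem_filter, mem_univ, true_and, mem_St]
      rw [← Finset.sum_filter, Finset.sum_const, nsmul_eq_mul, mul_comm, h7]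
      push_cast
      rfl
    rw [Finset.sum_congr rfl (fun σ _ => h2 σ), Finset.sum_comm]
    refine Finset.sum_congr rfl fun w _ => ?_
    unfold SS
    rw [Finset.sum_filter]
  rw [h1]
  rcases (Om (n := n) α).eq_empty_or_nonempty with h0 | ⟨w₀, hw₀⟩
  · exact ⟨0, by rw [h0]; simp⟩
  obtain ⟨d, hd⟩ := sum_sub V (St w₀)
  set c : ℕ := (univ.filter (fun σ => σ ∈ St w₀)).card with hc
  have hcpos : (c : ℂ) ≠ 0 := by
    have : 0 < c := Finset.card_pos.2 ⟨1, by rw [mem_filter]; exact ⟨mem_univ _, (St w₀).one_mem⟩⟩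
    exact_mod_cast this.ne'
  have h3 : ∑ ρ : Equiv.Perm (Fin n), SS V (w₀ ∘ ρ) = (n.factorial : ℂ) * SS V w₀ := by
    rw [Finset.sum_congr rfl (fun ρ _ => SS_comp V w₀ ρ), Finset.sum_const, Finset.card_univ,
      Fintype.card_perm, Fintype.card_fin, nsmul_eq_mul]
  have h4 : ∑ ρ : Equiv.Perm (Fin n), SS V (w₀ ∘ ρ) = (c : ℂ) * ∑ w ∈ Om α, SS V w := by
    rw [← Finset.sum_fiberwise_of_maps_to (s := univ) (t := Om α)
      (g := fun ρ : Equiv.Perm (Fin n) => w₀ ∘ ρ) (fun ρ _ => comp_mem hw₀ ρ)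
      (fun ρ => SS V (w₀ ∘ ρ)), Finset.mul_sum]
    refine Finset.sum_congr rfl fun w hw => ?_
    rw [Finset.sum_congr rfl (g := fun _ => SS V w)
      (fun ρ hρ => by rw [(mem_filter.1 hρ).2]), Finset.sum_const, nsmul_eq_mul,
      fib_card hw₀ hw]
  refine ⟨d, ?_⟩
  have h5 : (c : ℂ) * ∑ w ∈ Om α, SS V w = (c : ℂ) * ((n.factorial : ℂ) * ((d : ℤ) : ℂ)) := by
    rw [← h4, h3]
    have h6 : SS V w₀ = (c : ℂ) * d := hd
    rw [h6]
    push_cast
    ring
  exact mul_left_cancel₀ hcpos h5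

end Pool.Agent.Run7.h858.ZN
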